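import Pool.Agent.W2helper59.NW.Stm

/-!
# Piece PC1: reduction of the projection direction to the fundamental triangle
-/

set_option autoImplicit false

namespace Pool.Agent.W2helper93.NW

open Matrix Pool.Agent.W2helper59.NW
open scoped goldenRatio

/-- the stabiliser of `V` in the orthogonal group -/
def GG (V : Set (Fin 3 → ℝ)) : Set (Matrix (Fin 3) (Fin 3) ℝ) :=
  {g | g * gᵀ = 1 ∧ ∀ v ∈ V, g.mulVec v ∈ V ∧ gᵀ.mulVec v ∈ V}

lemma one_mem_GG (V : Set (Fin 3 → ℝ)) : (1 : Matrix (Fin 3) (Fin 3) ℝ) ∈ GG V := by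
  refine ⟨by simp, fun v hv => ?_⟩
  simp [hv]

lemma mul_mem_GG {V : Set (Fin 3 → ℝ)} {g h : Matrix (Fin 3) (Fin 3) ℝ} (hg : g ∈ GG V)
    (hh : h ∈ GG V) : g * h ∈ GG V := by
  refine ⟨?_, fun v hv => ⟨?_, ?_⟩⟩
  · rw [transpose_mul, Matrix.mul_assoc, ← Matrix.mul_assoc h, hh.1, Matrix.one_mul, hg.1]
  · rw [← mulVec_mulVec]
    exact (hg.2 _ (hh.2 v hv).1).1
  · rw [transpose_mul, ← mulVec_mulVec]
    exact (hh.2 _ (hg.2 v hv).2).2

lemma compact_GG {V : Set (Fin 3 → ℝ)} (hV : V.Finite) : IsCompact (GG V) := by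
  have hbox : IsCompact (Set.pi Set.univ fun _ : Fin 3 => Set.pi Set.univ fun _ : Fin 3 =>
      Set.Icc (-1 : ℝ) 1) :=
    isCompact_univ_pi fun _ => isCompact_univ_pi fun _ => isCompact_Icc
  have hclosed : IsClosed (GG V) := by
    have h1 : IsClosed {g : Matrix (Fin 3) (Fin 3) ℝ | g * gᵀ = 1} := by
      apply isClosed_eq _ continuous_const
      fun_prop
    have h2 : IsClosed {g : Matrix (Fin 3) (Fin 3) ℝ |
        ∀ v ∈ V, g.mulVec v ∈ V ∧ gᵀ.mulVec v ∈ V} := by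
      have : {g : Matrix (Fin 3) (Fin 3) ℝ | ∀ v ∈ V, g.mulVec v ∈ V ∧ gᵀ.mulVec v ∈ V} =
          ⋂ v ∈ V, ({g | g.mulVec v ∈ V} ∩ {g | gᵀ.mulVec v ∈ V}) := by
        ext g; simp
      rw [this]
      refine isClosed_biInter fun v _ => IsClosed.inter ?_ ?_
      · exact hV.isClosed.preimage (f := fun g : Matrix (Fin 3) (Fin 3) ℝ => g.mulVec v)
          (by fun_prop)
      · exact hV.isClosed.preimage (f := fun g : Matrix (Fin 3) (Fin 3) ℝ => gᵀ.mulVec v)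
          (by fun_prop)
    exact h1.inter h2
  refine hbox.of_isClosed_subset hclosed ?_
  rintro (g : Matrix (Fin 3) (Fin 3) ℝ) hg i - j -
  have h1 : (g * gᵀ) i i = 1 := by rw [hg.1]; simp
  rw [Matrix.mul_apply] at h1
  have h2 : g i j ^ 2 ≤ 1 := by
    rw [← h1]
    have h3 : g i j ^ 2 = g i j * gᵀ j i := by rw [transpose_apply]; ring
    rw [h3]
    exact Finset.single_le_sum (f := fun k => g i k * gᵀ k i)
      (fun k _ => by simp only [transpose_apply]; exact mul_self_nonneg _) (Finset.mem_univ j)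
  exact abs_le.1 ((sq_le_one_iff_abs_le_one _).1 h2)

/-- the reflection in the hyperplane orthogonal to the unit vector `a` -/
noncomputable def HH (a : Fin 3 → ℝ) : Matrix (Fin 3) (Fin 3) ℝ := 1 - (2 : ℝ) • vecMulVec a a

lemma HH_mulVec (a v : Fin 3 → ℝ) : (HH a).mulVec v = v - (2 * (a ⬝ᵥ v)) • a := by
  unfold HH
  rw [sub_mulVec, one_mulVec, smul_mulVec, vecMulVec_mulVec]
  ext i
  simp
  ring

lemma HH_transpose (a : Fin 3 → ℝ) : (HH a)ᵀ = HH a := by
  unfold HH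
  rw [transpose_sub, transpose_one, transpose_smul, transpose_vecMulVec]

lemma HH_mul (a : Fin 3 → ℝ) (ha : a ⬝ᵥ a = 1) : HH a * HH a = 1 := by
  unfold HH
  rw [sub_mul, mul_sub, mul_sub]
  simp only [Matrix.one_mul, Matrix.mul_one, Matrix.smul_mul, Matrix.mul_smul,
    vecMulVec_mul_vecMulVec, ha, one_smul]
  ext i j
  simp
  ring

lemma HH_mem {V : Set (Fin 3 → ℝ)} {a : Fin 3 → ℝ} (ha : a ⬝ᵥ a = 1)
    (h : ∀ v ∈ V, v - (2 * (a ⬝ᵥ v)) • a ∈ V) : HH a ∈ GG V := by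
  refine ⟨by rw [HH_transpose, HH_mul a ha], fun v hv => ?_⟩
  rw [HH_transpose, HH_mulVec]
  exact ⟨h v hv, h v hv⟩

lemma phi_sq : φ ^ 2 = φ + 1 := Real.goldenRatio_sq

lemma root1 {V : Set (Fin 3 → ℝ)} (hV : Sym V) : HH ![1, 0, 0] ∈ GG V := by
  refine HH_mem (by simp) fun v hv => ?_
  have h := hV.sx v hv
  convert h using 1
  ext i
  fin_cases i <;> simp [dotProduct, Fin.sum_univ_three]
  ring

lemma root2 {V : Set (Fin 3 → ℝ)} (hV : Sym V) : HH ![0, 1, 0] ∈ GG V := by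
  refine HH_mem (by simp) fun v hv => ?_
  have h := hV.cyc _ (hV.cyc _ (hV.sx _ (hV.cyc v hv)))
  convert h using 1
  ext i
  fin_cases i <;> simp [dotProduct, Fin.sum_univ_three]
  ring

lemma root3 {V : Set (Fin 3 → ℝ)} (hV : Sym V) : HH ![-φ / 2, -1 / 2, (φ - 1) / 2] ∈ GG V := by
  refine HH_mem ?_ fun v hv => ?_
  · simp [dotProduct, Fin.sum_univ_three]
    have := phi_sq
    nlinarith
  · have h := hV.s3 v hv
    convert h using 1
    ext i
    fin_cases i <;> simp [dotProduct, Fin.sum_univ_three] <;> ring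

theorem pc1 : PC1 := by
  intro V hV c hP
  obtain ⟨u, R, hR, hu, hPass⟩ := hP
  have hphi := phi_sq
  have hphi1 : 1 < φ := Real.one_lt_goldenRatio
  have hphi2 : φ < 2 := Real.goldenRatio_lt_two
  have hphi3 : (8 : ℝ) / 5 < φ := by nlinarith
  obtain ⟨g, hg, hmax⟩ := (compact_GG hV.fin).exists_isMaxOn ⟨1, one_mem_GG V⟩
    (f := fun g : Matrix (Fin 3) (Fin 3) ℝ => g.mulVec u ⬝ᵥ ![1 / 10, 1 / 10, 1])
    (by fun_prop)
  have key : ∀ a : Fin 3 → ℝ, HH a ∈ GG V →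
      0 ≤ (a ⬝ᵥ g.mulVec u) * (a ⬝ᵥ ![1 / 10, 1 / 10, 1]) := by
    intro a ha
    have h1 := hmax (mul_mem_GG ha hg)
    simp only [Set.mem_setOf_eq] at h1
    rw [← mulVec_mulVec, HH_mulVec, sub_dotProduct, smul_dotProduct, smul_eq_mul] at h1
    linarith
  set y := g.mulVec u with hy
  have k1 := key _ (root1 hV)
  have k2 := key _ (root2 hV)
  have k3 := key _ (root3 hV)
  simp [dotProduct, Fin.sum_univ_three] at k1 k2 k3
  have y0 : 0 ≤ y 0 := by linarith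
  have y1 : 0 ≤ y 1 := by linarith
  have y2 : φ ^ 2 * y 0 + φ * y 1 ≤ y 2 := by
    have hpos : 0 < -φ / 2 * 10⁻¹ + -1 / 2 * 10⁻¹ + (φ - 1) / 2 := by linarith
    have h1 : 0 ≤ -φ / 2 * y 0 + -1 / 2 * y 1 + (φ - 1) / 2 * y 2 :=
      nonneg_of_mul_nonneg_left k3 hpos
    have h2 : 0 ≤ φ * (-φ / 2 * y 0 + -1 / 2 * y 1 + (φ - 1) / 2 * y 2) :=
      mul_nonneg (by linarith) h1
    have h3 : φ * (-φ / 2 * y 0 + -1 / 2 * y 1 + (φ - 1) / 2 * y 2) =
        (-φ ^ 2 * y 0 - φ * y 1 + (φ ^ 2 - φ) * y 2) / 2 := by ring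
    rw [h3, hphi] at h2
    rw [hphi]
    nlinarith
  have hyne : y ≠ 0 := by
    intro h0
    apply hu
    have h1 : gᵀ * g = 1 := mul_eq_one_comm.1 hg.1
    have h2 : gᵀ.mulVec y = u := by
      rw [hy, mulVec_mulVec, h1, one_mulVec]
    rw [← h2, h0, mulVec_zero]
  have y2pos : 0 < y 2 := by
    have h0 : 0 ≤ φ ^ 2 * y 0 := by positivity
    have h1 : 0 ≤ φ * y 1 := mul_nonneg (by linarith) y1
    rcases (show (0:ℝ) ≤ y 2 by linarith).lt_or_eq with h | h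
    · exact h
    · exfalso
      apply hyne
      have h2 : φ ^ 2 * y 0 = 0 := by linarith
      have h3 : φ * y 1 = 0 := by linarith
      have h4 : y 0 = 0 := by
        rcases mul_eq_zero.1 h2 with h5 | h5
        · exfalso; rw [hphi] at h5; linarith
        · exact h5
      have h5 : y 1 = 0 := by
        rcases mul_eq_zero.1 h3 with h6 | h6
        · exfalso; linarith
        · exact h6
      ext i
      fin_cases i
      · exact h4
      · exact h5
      · exact h.symm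
  refine ⟨y 0 / y 2, y 1 / y 2, by positivity, by positivity, ?_, g * R * gᵀ, ?_, ?_⟩
  · rw [← mul_div_assoc, ← mul_div_assoc, ← add_div, div_le_one y2pos]
    exact y2
  · rw [mem_specialOrthogonalGroup_iff] at hR ⊢
    have hRo := (mem_orthogonalGroup_iff _ _).1 hR.1
    have h1 : gᵀ * g = 1 := mul_eq_one_comm.1 hg.1
    refine ⟨?_, ?_⟩
    · rw [mem_orthogonalGroup_iff]
      rw [transpose_mul, transpose_mul, transpose_transpose]
      calc g * R * gᵀ * (g * (Rᵀ * gᵀ)) = g * R * (gᵀ * g) * Rᵀ * gᵀ := by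
            simp only [Matrix.mul_assoc]
        _ = g * (R * Rᵀ) * gᵀ := by rw [h1, Matrix.mul_one]; simp only [Matrix.mul_assoc]
        _ = 1 := by rw [hRo, Matrix.mul_one, hg.1]
    · rw [det_mul, det_mul, hR.2, mul_one, ← det_mul, hg.1, det_one]
  · intro w hw q hq
    have hw2 : gᵀ.mulVec w ⬝ᵥ u = 0 := by
      have h1 : gᵀ.mulVec w ⬝ᵥ u = w ⬝ᵥ y := by
        rw [hy, dotProduct_mulVec, ← mulVec_transpose]
      rw [h1]
      have h2 : w ⬝ᵥ y = y 2 * (w 0 * (y 0 / y 2) + w 1 * (y 1 / y 2) + w 2) := by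
        simp only [dotProduct, Fin.sum_univ_three]
        field_simp
      rw [h2, hw, mul_zero]
    obtain ⟨v, hv, hv2⟩ := hPass (gᵀ.mulVec w) hw2 (gᵀ.mulVec q) (hg.2 q hq).2
    refine ⟨g.mulVec v, (hg.2 v hv).1, ?_⟩
    have e1 : R.mulVec (gᵀ.mulVec q) ⬝ᵥ gᵀ.mulVec w = (g * R * gᵀ).mulVec q ⬝ᵥ w := by
      rw [← mulVec_mulVec, ← mulVec_mulVec, dotProduct_comm, mulVec_transpose,
        ← dotProduct_mulVec, dotProduct_comm]
    have e2 : v ⬝ᵥ gᵀ.mulVec w = g.mulVec v ⬝ᵥ w := by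
      rw [dotProduct_comm, mulVec_transpose, ← dotProduct_mulVec, dotProduct_comm]
    rw [e1, e2] at hv2
    exact hv2

end Pool.Agent.W2helper93.NW
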