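import Pool.Agent.W2helper59.NW.Geo

/-!
Piece G1 of the Nieuwland project (helper59): soundness of one root cell.
-/

set_option autoImplicit false

namespace Pool.Agent.W2helper59.NW

open Matrix
open scoped goldenRatio

namespace G1P

/-! ### Arithmetic in `ℤ[φ]` -/

lemma r_add (a b : Zf) : (a.add b).r = a.r + b.r := by
  simp only [Zf.add, Zf.r]; push_cast; ring

lemma r_sub (a b : Zf) : (a.sub b).r = a.r - b.r := by
  simp only [Zf.sub, Zf.r]; push_cast; ring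

lemma r_mul (a b : Zf) : (a.mul b).r = a.r * b.r := by
  have h : φ ^ 2 = φ + 1 := Real.goldenRatio_sq
  simp only [Zf.mul, Zf.r]; push_cast
  linear_combination (-(a.y : ℝ) * b.y) * h

lemma r_smul (k : ℤ) (a : Zf) : (a.smul k).r = k * a.r := by
  simp only [Zf.smul, Zf.r]; push_cast; ring

lemma phi_lo : (phiLo : ℝ) ≤ φ * 10 ^ 40 := by
  have h : φ ^ 2 = φ + 1 := Real.goldenRatio_sq
  have h1 : 1 < φ := Real.one_lt_goldenRatio
  have hL : ((phiLo : ℝ) / 10 ^ 40) ^ 2 ≤ (phiLo : ℝ) / 10 ^ 40 + 1 := by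
    unfold phiLo; norm_num
  have hp : (0 : ℝ) < (phiLo : ℝ) / 10 ^ 40 := by unfold phiLo; norm_num
  have : (phiLo : ℝ) / 10 ^ 40 ≤ φ := by
    by_contra hc
    push Not at hc
    nlinarith
  rwa [div_le_iff₀ (by positivity)] at this

lemma phi_hi : φ * 10 ^ 40 ≤ (phiLo : ℝ) + 1 := by
  have h : φ ^ 2 = φ + 1 := Real.goldenRatio_sq
  have h1 : 1 < φ := Real.one_lt_goldenRatio
  have hL : ((phiLo : ℝ) + 1) / 10 ^ 40 + 1 ≤ (((phiLo : ℝ) + 1) / 10 ^ 40) ^ 2 := by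
    unfold phiLo; norm_num
  have hp : (0 : ℝ) < ((phiLo : ℝ) + 1) / 10 ^ 40 := by unfold phiLo; norm_num
  have : φ ≤ ((phiLo : ℝ) + 1) / 10 ^ 40 := by
    by_contra hc
    push Not at hc
    nlinarith
  rwa [le_div_iff₀ (by positivity)] at this

lemma leZ_sound {z : Zf} {R : ℤ} (h : leZ z R = true) : z.r ≤ R := by
  unfold leZ at h
  have h' := of_decide_eq_true h
  have hlo := phi_lo
  have hhi := phi_hi
  have h2 : ((z.x * 10 ^ 40 + z.y * (if 0 ≤ z.y then phiLo + 1 else phiLo) : ℤ) : ℝ) ≤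
      ((R * 10 ^ 40 : ℤ) : ℝ) := by exact_mod_cast h'
  have h3 : z.r * 10 ^ 40 ≤ (R : ℝ) * 10 ^ 40 := by
    unfold Zf.r
    split_ifs at h2 with hy
    · have hy' : (0 : ℝ) ≤ z.y := by exact_mod_cast hy
      push_cast at h2
      nlinarith [mul_le_mul_of_nonneg_left hhi hy']
    · have hy' : (z.y : ℝ) ≤ 0 := by exact_mod_cast (not_le.mp hy).le
      push_cast at h2
      nlinarith [mul_le_mul_of_nonpos_left hlo hy']
  exact le_of_mul_le_mul_right h3 (by positivity)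

lemma geZ_sound {z : Zf} {R : ℤ} (h : geZ z R = true) : (R : ℝ) ≤ z.r := by
  unfold geZ at h
  have h' := of_decide_eq_true h
  have hlo := phi_lo
  have hhi := phi_hi
  have h2 : ((R * 10 ^ 40 : ℤ) : ℝ) ≤
      ((z.x * 10 ^ 40 + z.y * (if 0 ≤ z.y then phiLo else phiLo + 1) : ℤ) : ℝ) := by
    exact_mod_cast h'
  have h3 : (R : ℝ) * 10 ^ 40 ≤ z.r * 10 ^ 40 := by
    unfold Zf.r
    split_ifs at h2 with hy
    · have hy' : (0 : ℝ) ≤ z.y := by exact_mod_cast hy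
      push_cast at h2
      nlinarith [mul_le_mul_of_nonneg_left hlo hy']
    · have hy' : (z.y : ℝ) ≤ 0 := by exact_mod_cast (not_le.mp hy).le
      push_cast at h2
      nlinarith [mul_le_mul_of_nonpos_left hhi hy']
  exact le_of_mul_le_mul_right h3 (by positivity)

/-! ### Lists -/

lemma exists_zip_right {α β : Type*} : ∀ (l : List α) (m : List β), l.length = m.length →
    ∀ b ∈ m, ∃ a ∈ l, (a, b) ∈ l.zip m
  | [], [], _, b, hb => absurd hb List.not_mem_nil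
  | [], _ :: _, h, _, _ => by simp at h
  | _ :: _, [], h, _, _ => by simp at h
  | x :: l, y :: m, h, b, hb => by
    rcases List.mem_cons.mp hb with rfl | hb
    · exact ⟨x, List.mem_cons_self, by simp⟩
    · obtain ⟨a, ha, hab⟩ := exists_zip_right l m (by simpa using h) b hb
      exact ⟨a, List.mem_cons_of_mem _ ha, by
        rw [List.zip_cons_cons]; exact List.mem_cons_of_mem _ hab⟩

lemma exists_zip_left {α β : Type*} : ∀ (l : List α) (m : List β), l.length = m.length →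
    ∀ a ∈ l, ∃ b ∈ m, (a, b) ∈ l.zip m
  | [], [], _, b, hb => absurd hb List.not_mem_nil
  | [], _ :: _, h, _, _ => by simp at h
  | _ :: _, [], h, _, _ => by simp at h
  | x :: l, y :: m, h, a, ha => by
    rcases List.mem_cons.mp ha with rfl | ha
    · exact ⟨y, List.mem_cons_self, by simp⟩
    · obtain ⟨b, hb, hab⟩ := exists_zip_left l m (by simpa using h) a ha
      exact ⟨b, List.mem_cons_of_mem _ hb, by
        rw [List.zip_cons_cons]; exact List.mem_cons_of_mem _ hab⟩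

/-! ### The polar form -/

/-- real version of `Fz` -/
noncomputable def Fr (m1 m2 m3 a1 a2 a3 q1 q2 q3 : ℝ) (w x y z w' x' y' z' : ℝ) : ℝ :=
  10 ^ 13 * (w * w' + (x * x' + y * y' + z * z')) * (a1 * m1 + a2 * m2 + a3 * m3) -
  10108230607528 * ((w * w' - (x * x' + y * y' + z * z')) * (q1 * m1 + q2 * m2 + q3 * m3) +
    (x * q1 + y * q2 + z * q3) * (x' * m1 + y' * m2 + z' * m3) +
    (x' * q1 + y' * q2 + z' * q3) * (x * m1 + y * m2 + z * m3) +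
    w * (x' * (q2 * m3 - q3 * m2) + y' * (q3 * m1 - q1 * m3) + z' * (q1 * m2 - q2 * m1)) +
    w' * (x * (q2 * m3 - q3 * m2) + y * (q3 * m1 - q1 * m3) + z * (q1 * m2 - q2 * m1)))

lemma Fz_r (U a d q : Z3) (p p' : I4) : (Fz U a d q p p').r =
    Fr (d.b.r * U.c.r - d.c.r * U.b.r) (d.c.r * U.a.r - d.a.r * U.c.r)
      (d.a.r * U.b.r - d.b.r * U.a.r) a.a.r a.b.r a.c.r q.a.r q.b.r q.c.r
      p.w p.x p.y p.z p'.w p'.x p'.y p'.z := by
  simp only [Fz, Z3.dot, Z3.cross, I4.vdot, r_add, r_sub, r_mul, r_smul, Fr]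
  push_cast
  ring

lemma Fr_quad (m1 m2 m3 a1 a2 a3 q1 q2 q3 n0 n1 n2 n3 : ℝ) :
    n0 ^ 2 * Fr m1 m2 m3 a1 a2 a3 q1 q2 q3 1000 709 709 (-709) 1000 709 709 (-709) +
    2 * (n0 * n1) * Fr m1 m2 m3 a1 a2 a3 q1 q2 q3 1000 709 709 (-709) 1000 709 (-709) 709 +
    2 * (n0 * n2) * Fr m1 m2 m3 a1 a2 a3 q1 q2 q3 1000 709 709 (-709) 1000 (-709) 709 709 +
    2 * (n0 * n3) * Fr m1 m2 m3 a1 a2 a3 q1 q2 q3 1000 709 709 (-709) 1000 (-709) (-709) (-709) +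
    n1 ^ 2 * Fr m1 m2 m3 a1 a2 a3 q1 q2 q3 1000 709 (-709) 709 1000 709 (-709) 709 +
    2 * (n1 * n2) * Fr m1 m2 m3 a1 a2 a3 q1 q2 q3 1000 709 (-709) 709 1000 (-709) 709 709 +
    2 * (n1 * n3) * Fr m1 m2 m3 a1 a2 a3 q1 q2 q3 1000 709 (-709) 709 1000 (-709) (-709) (-709) +
    n2 ^ 2 * Fr m1 m2 m3 a1 a2 a3 q1 q2 q3 1000 (-709) 709 709 1000 (-709) 709 709 +
    2 * (n2 * n3) * Fr m1 m2 m3 a1 a2 a3 q1 q2 q3 1000 (-709) 709 709 1000 (-709) (-709) (-709) +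
    n3 ^ 2 * Fr m1 m2 m3 a1 a2 a3 q1 q2 q3 1000 (-709) (-709) (-709) 1000 (-709) (-709) (-709) =
    10 ^ 6 * Fr m1 m2 m3 a1 a2 a3 q1 q2 q3 (n0 + n1 + n2 + n3) (709 / 1000 * (n0 + n1 - n2 - n3))
      (709 / 1000 * (n0 - n1 + n2 - n3)) (709 / 1000 * (-n0 + n1 + n2 - n3))
      (n0 + n1 + n2 + n3) (709 / 1000 * (n0 + n1 - n2 - n3))
      (709 / 1000 * (n0 - n1 + n2 - n3)) (709 / 1000 * (-n0 + n1 + n2 - n3)) := by
  simp only [Fr]
  ring

lemma okE_sound {U a d q : Z3} {P P' : I4} {e : ℕ} (h : okE (Fz U a d q P P') e = true) :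
    2 ^ 60 / 10 ^ 19 * (Fz U a d q P P').r ≤ (e : ℝ) - Zo := by
  have h1 := leZ_sound h
  rw [r_smul] at h1
  push_cast at h1
  rw [div_mul_eq_mul_div, div_le_iff₀ (by positivity)]
  norm_num at h1 ⊢
  exact h1

lemma form_le {U a d q : Z3} {s : S10} (h : okS U a d q s = true) {n0 n1 n2 n3 : ℝ}
    (h0 : 0 ≤ n0) (h1 : 0 ≤ n1) (h2 : 0 ≤ n2) (h3 : 0 ≤ n3) :
    2 ^ 60 / 10 ^ 19 * (10 ^ 6 *
      Fr (d.b.r * U.c.r - d.c.r * U.b.r) (d.c.r * U.a.r - d.a.r * U.c.r)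
      (d.a.r * U.b.r - d.b.r * U.a.r) a.a.r a.b.r a.c.r q.a.r q.b.r q.c.r
      (n0 + n1 + n2 + n3) (709 / 1000 * (n0 + n1 - n2 - n3))
      (709 / 1000 * (n0 - n1 + n2 - n3)) (709 / 1000 * (-n0 + n1 + n2 - n3))
      (n0 + n1 + n2 + n3) (709 / 1000 * (n0 + n1 - n2 - n3))
      (709 / 1000 * (n0 - n1 + n2 - n3)) (709 / 1000 * (-n0 + n1 + n2 - n3))) ≤
    bR s ⟨n0, n1, n2, n3⟩ ⟨n0, n1, n2, n3⟩ - Zo * (m4 ⟨n0, n1, n2, n3⟩) ^ 2 := by
  unfold okS at h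
  simp only [Bool.and_eq_true] at h
  obtain ⟨⟨⟨⟨⟨⟨⟨⟨⟨k1, k2⟩, k3⟩, k4⟩, k5⟩, k6⟩, k7⟩, k8⟩, k9⟩, k10⟩ := h
  have e1 := mul_le_mul_of_nonneg_left (okE_sound k1) (sq_nonneg n0)
  have e2 := mul_le_mul_of_nonneg_left (okE_sound k2) (mul_nonneg (by norm_num : (0:ℝ) ≤ 2) (mul_nonneg h0 h1))
  have e3 := mul_le_mul_of_nonneg_left (okE_sound k3) (mul_nonneg (by norm_num : (0:ℝ) ≤ 2) (mul_nonneg h0 h2))
  have e4 := mul_le_mul_of_nonneg_left (okE_sound k4) (mul_nonneg (by norm_num : (0:ℝ) ≤ 2) (mul_nonneg h0 h3))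
  have e5 := mul_le_mul_of_nonneg_left (okE_sound k5) (sq_nonneg n1)
  have e6 := mul_le_mul_of_nonneg_left (okE_sound k6) (mul_nonneg (by norm_num : (0:ℝ) ≤ 2) (mul_nonneg h1 h2))
  have e7 := mul_le_mul_of_nonneg_left (okE_sound k7) (mul_nonneg (by norm_num : (0:ℝ) ≤ 2) (mul_nonneg h1 h3))
  have e8 := mul_le_mul_of_nonneg_left (okE_sound k8) (sq_nonneg n2)
  have e9 := mul_le_mul_of_nonneg_left (okE_sound k9) (mul_nonneg (by norm_num : (0:ℝ) ≤ 2) (mul_nonneg h2 h3))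
  have e10 := mul_le_mul_of_nonneg_left (okE_sound k10) (sq_nonneg n3)
  rw [Fz_r] at e1 e2 e3 e4 e5 e6 e7 e8 e9 e10
  simp only [Pq0, Pq1, Pq2, Pq3] at e1 e2 e3 e4 e5 e6 e7 e8 e9 e10
  push_cast at e1 e2 e3 e4 e5 e6 e7 e8 e9 e10
  rw [← Fr_quad]
  unfold bR m4
  simp only
  generalize Fr _ _ _ _ _ _ _ _ _ 1000 709 709 (-709) 1000 709 709 (-709) = F1 at *
  generalize Fr _ _ _ _ _ _ _ _ _ 1000 709 709 (-709) 1000 709 (-709) 709 = F2 at *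
  generalize Fr _ _ _ _ _ _ _ _ _ 1000 709 709 (-709) 1000 (-709) 709 709 = F3 at *
  generalize Fr _ _ _ _ _ _ _ _ _ 1000 709 709 (-709) 1000 (-709) (-709) (-709) = F4 at *
  generalize Fr _ _ _ _ _ _ _ _ _ 1000 709 (-709) 709 1000 709 (-709) 709 = F5 at *
  generalize Fr _ _ _ _ _ _ _ _ _ 1000 709 (-709) 709 1000 (-709) 709 709 = F6 at *
  generalize Fr _ _ _ _ _ _ _ _ _ 1000 709 (-709) 709 1000 (-709) (-709) (-709) = F7 at *
  generalize Fr _ _ _ _ _ _ _ _ _ 1000 (-709) 709 709 1000 (-709) 709 709 = F8 at *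
  generalize Fr _ _ _ _ _ _ _ _ _ 1000 (-709) 709 709 1000 (-709) (-709) (-709) = F9 at *
  generalize Fr _ _ _ _ _ _ _ _ _ 1000 (-709) (-709) (-709) 1000 (-709) (-709) (-709) = F10 at *
  linarith

/-- `Fr` is linear in `m` -/
lemma Fr_lin (μ0 μ1 μ2 m1 m2 m3 m1' m2' m3' m1'' m2'' m3'' a1 a2 a3 q1 q2 q3 w x y z : ℝ) :
    μ0 * Fr m1 m2 m3 a1 a2 a3 q1 q2 q3 w x y z w x y z +
    μ1 * Fr m1' m2' m3' a1 a2 a3 q1 q2 q3 w x y z w x y z +
    μ2 * Fr m1'' m2'' m3'' a1 a2 a3 q1 q2 q3 w x y z w x y z =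
    Fr (μ0 * m1 + μ1 * m1' + μ2 * m1'') (μ0 * m2 + μ1 * m2' + μ2 * m2'')
      (μ0 * m3 + μ1 * m3' + μ2 * m3'') a1 a2 a3 q1 q2 q3 w x y z w x y z := by
  simp only [Fr]
  ring

/-- the form for `w = k d × (s,t,1)` -/
lemma Fr_val (k w1 w2 w3 a1 a2 a3 q1 q2 q3 x y z : ℝ) :
    Fr (k * w1) (k * w2) (k * w3) a1 a2 a3 q1 q2 q3 1 x y z 1 x y z =
    k * 10 ^ 13 * ((1 + x ^ 2 + y ^ 2 + z ^ 2) * (![a1, a2, a3] ⬝ᵥ ![w1, w2, w3]) -
      c0 * (RQ x y z ![q1, q2, q3] ⬝ᵥ ![w1, w2, w3])) := by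
  simp only [Fr, RQ, c0, dotProduct, Fin.sum_univ_three, Matrix.cons_val_zero,
    Matrix.cons_val_one, Matrix.cons_val_two, Matrix.head_cons, Matrix.tail_cons]
  ring

lemma r_dot (u v : Z3) : (u.dot v).r = u.a.r * v.a.r + u.b.r * v.b.r + u.c.r * v.c.r := by
  simp only [Z3.dot, r_add, r_mul]

/-- the vertices are below the edge -/
lemma okV_sound {V : List Z3} {U a d : Z3} (h : okV V U a d = true) {v : Z3} (hv : v ∈ V) :
    (v.a.r - a.a.r) * (d.b.r * U.c.r - d.c.r * U.b.r) +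
    (v.b.r - a.b.r) * (d.c.r * U.a.r - d.a.r * U.c.r) +
    (v.c.r - a.c.r) * (d.a.r * U.b.r - d.b.r * U.a.r) ≤ 0 := by
  unfold okV at h
  have h1 := leZ_sound (List.all_eq_true.mp h v hv)
  rw [r_dot] at h1
  simp only [Z3.sub, Z3.cross, r_sub, r_mul] at h1
  push_cast at h1
  linarith

/-- real points -/
lemma z3r (v : Z3) : v.r = ![v.a.r, v.b.r, v.c.r] := rfl

lemma dot3r (a1 a2 a3 w1 w2 w3 : ℝ) : ![a1, a2, a3] ⬝ᵥ ![w1, w2, w3] =
    a1 * w1 + a2 * w2 + a3 * w3 := by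
  simp only [dotProduct, Fin.sum_univ_three, Matrix.cons_val_zero,
    Matrix.cons_val_one, Matrix.cons_val_two, Matrix.head_cons, Matrix.tail_cons]

/-- the quaternion coordinates -/
structure Crd (x y z n0 n1 n2 n3 : ℝ) : Prop where
  h0 : 0 ≤ n0
  h1 : 0 ≤ n1
  h2 : 0 ≤ n2
  h3 : 0 ≤ n3
  s : n0 + n1 + n2 + n3 = 1
  x : 709 / 1000 * (n0 + n1 - n2 - n3) = x
  y : 709 / 1000 * (n0 - n1 + n2 - n3) = y
  z : 709 / 1000 * (-n0 + n1 + n2 - n3) = z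

lemma good_con {Vl : List Z3} {V : Set (Fin 3 → ℝ)} (hV1 : ∀ v ∈ Vl, v.r ∈ V)
    (hV2 : ∀ v ∈ V, ∃ z ∈ Vl, v = z.r) (hV3 : ∀ v ∈ V, -v ∈ V) {R : Root} {a d : Z3} {i : ℕ}
    {c : Con} (hok : okCon Vl R a d i c = true) {cc s t x y z k μ0 μ1 μ2 n0 n1 n2 n3 : ℝ}
    (hc : c0 ≤ cc) (hP : PassQ V cc s t x y z) (hk : 0 < k) (hμ0 : 0 ≤ μ0) (hμ1 : 0 ≤ μ1)
    (hμ2 : 0 ≤ μ2) (es : k * s = μ0 * R.U0.a.r + μ1 * R.U1.a.r + μ2 * R.U2.a.r)
    (et : k * t = μ0 * R.U0.b.r + μ1 * R.U1.b.r + μ2 * R.U2.b.r)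
    (ek : k = μ0 * R.U0.c.r + μ1 * R.U1.c.r + μ2 * R.U2.c.r) (hn : Crd x y z n0 n1 n2 n3) :
    GoodC c ⟨μ0, μ1, μ2⟩ ⟨n0, n1, n2, n3⟩ := by
  unfold okCon at hok
  split at hok
  · exact absurd hok (by simp)
  · rename_i q hq
    have hqV : q ∈ Vl := List.mem_of_getElem? hq
    simp only [Bool.and_eq_true] at hok
    obtain ⟨⟨⟨⟨⟨v0, v1⟩, v2⟩, f0⟩, f1⟩, f2⟩ := hok
    have g0 := form_le f0 hn.h0 hn.h1 hn.h2 hn.h3
    have g1 := form_le f1 hn.h0 hn.h1 hn.h2 hn.h3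
    have g2 := form_le f2 hn.h0 hn.h1 hn.h2 hn.h3
    rw [hn.s, hn.x, hn.y, hn.z] at g0 g1 g2
    -- the direction
    obtain ⟨w1, hw1⟩ : ∃ w1, w1 = d.b.r * 1 - d.c.r * t := ⟨_, rfl⟩
    obtain ⟨w2, hw2⟩ : ∃ w2, w2 = d.c.r * s - d.a.r * 1 := ⟨_, rfl⟩
    obtain ⟨w3, hw3⟩ : ∃ w3, w3 = d.a.r * t - d.b.r * s := ⟨_, rfl⟩
    have e1 : k * w1 = μ0 * (d.b.r * R.U0.c.r - d.c.r * R.U0.b.r) +
        μ1 * (d.b.r * R.U1.c.r - d.c.r * R.U1.b.r) + μ2 * (d.b.r * R.U2.c.r - d.c.r * R.U2.b.r) := by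
      rw [hw1]; linear_combination d.b.r * ek - d.c.r * et
    have e2 : k * w2 = μ0 * (d.c.r * R.U0.a.r - d.a.r * R.U0.c.r) +
        μ1 * (d.c.r * R.U1.a.r - d.a.r * R.U1.c.r) + μ2 * (d.c.r * R.U2.a.r - d.a.r * R.U2.c.r) := by
      rw [hw2]; linear_combination d.c.r * es - d.a.r * ek
    have e3 : k * w3 = μ0 * (d.a.r * R.U0.b.r - d.b.r * R.U0.a.r) +
        μ1 * (d.a.r * R.U1.b.r - d.b.r * R.U1.a.r) + μ2 * (d.a.r * R.U2.b.r - d.b.r * R.U2.a.r) := by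
      rw [hw3]; linear_combination d.a.r * et - d.b.r * es
    -- all vertices are below the edge
    have hbelow : ∀ v ∈ V, v ⬝ᵥ ![w1, w2, w3] ≤ a.a.r * w1 + a.b.r * w2 + a.c.r * w3 := by
      intro v hv
      obtain ⟨v', hv', rfl⟩ := hV2 v hv
      rw [z3r, dot3r]
      have b0 := mul_nonpos_of_nonneg_of_nonpos hμ0 (okV_sound v0 hv')
      have b1 := mul_nonpos_of_nonneg_of_nonpos hμ1 (okV_sound v1 hv')
      have b2 := mul_nonpos_of_nonneg_of_nonpos hμ2 (okV_sound v2 hv')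
      have b3 : k * ((v'.a.r - a.a.r) * w1 + (v'.b.r - a.b.r) * w2 + (v'.c.r - a.c.r) * w3) ≤ 0 := by
        have : k * ((v'.a.r - a.a.r) * w1 + (v'.b.r - a.b.r) * w2 + (v'.c.r - a.c.r) * w3) =
            (v'.a.r - a.a.r) * (k * w1) + (v'.b.r - a.b.r) * (k * w2) +
            (v'.c.r - a.c.r) * (k * w3) := by ring
        rw [this, e1, e2, e3]
        linarith
      have b4 : (v'.a.r - a.a.r) * w1 + (v'.b.r - a.b.r) * w2 + (v'.c.r - a.c.r) * w3 ≤ 0 := by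
        by_contra hcon
        push Not at hcon
        have := mul_pos hk hcon
        linarith
      linarith
    have hn0 : 0 < 1 + x ^ 2 + y ^ 2 + z ^ 2 := by positivity
    have ha0 : 0 ≤ a.a.r * w1 + a.b.r * w2 + a.c.r * w3 := by
      have b1 := hbelow _ (hV1 q hqV)
      have b2 := hbelow _ (hV3 _ (hV1 q hqV))
      rw [neg_dotProduct] at b2
      linarith
    have hmain : c0 * (RQ x y z ![q.a.r, q.b.r, q.c.r] ⬝ᵥ ![w1, w2, w3]) ≤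
        (1 + x ^ 2 + y ^ 2 + z ^ 2) * (![a.a.r, a.b.r, a.c.r] ⬝ᵥ ![w1, w2, w3]) := by
      rw [dot3r]
      obtain ⟨v, hv, hle⟩ := hP ![w1, w2, w3] (by
        simp only [Matrix.cons_val_zero, Matrix.cons_val_one, Matrix.cons_val_two,
          Matrix.head_cons, Matrix.tail_cons]
        rw [hw1, hw2, hw3]; ring) q.r (hV1 q hqV)
      have b1 := mul_le_mul_of_nonneg_left (hbelow v hv) hn0.le
      rw [z3r] at hle
      rcases le_total 0 (RQ x y z ![q.a.r, q.b.r, q.c.r] ⬝ᵥ ![w1, w2, w3]) with hq0 | hq0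
      · have := mul_le_mul_of_nonneg_right hc hq0
        linarith
      · have h1 : 0 ≤ c0 := by unfold c0; norm_num
        have := mul_nonpos_of_nonneg_of_nonpos h1 hq0
        have h2 := mul_nonneg hn0.le ha0
        linarith
    have hval := Fr_val k w1 w2 w3 a.a.r a.b.r a.c.r q.a.r q.b.r q.c.r x y z
    have hpos : 0 ≤ Fr (k * w1) (k * w2) (k * w3) a.a.r a.b.r a.c.r q.a.r q.b.r q.c.r
        1 x y z 1 x y z := by
      rw [hval]
      have : 0 ≤ k * 10 ^ 13 := by positivity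
      exact mul_nonneg this (by linarith)
    rw [e1, e2, e3, ← Fr_lin] at hpos
    have t0 := mul_le_mul_of_nonneg_left g0 hμ0
    have t1 := mul_le_mul_of_nonneg_left g1 hμ1
    have t2 := mul_le_mul_of_nonneg_left g2 hμ2
    unfold GoodC evC m3
    simp only
    linarith

lemma crd_of_DC {x y z : ℝ} (h : DC x y z) : Crd x y z
    ((1 + 1000 / 709 * (x + y - z)) / 4) ((1 + 1000 / 709 * (x - y + z)) / 4)
    ((1 + 1000 / 709 * (-x + y + z)) / 4) ((1 + 1000 / 709 * (-x - y - z)) / 4) := by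
  obtain ⟨h1, h2, h3, h4, h5, h6⟩ := h
  rw [abs_le] at h1 h2 h3 h4 h5 h6
  have hp : φ ^ 2 = φ + 1 := Real.goldenRatio_sq
  have hphi : φ < 1.6181 := by
    have h1 : 1 < φ := Real.one_lt_goldenRatio
    by_contra hc
    push Not at hc
    nlinarith
  have hg1 : 1 < φ := Real.one_lt_goldenRatio
  have key : ∀ S : ℝ, (1 + φ) * S ≤ 3 * (φ - 1) → S ≤ 709 / 1000 := by
    intro S hS
    by_contra hc
    push Not at hc
    have : (1 + φ) * (709 / 1000) < (1 + φ) * S := mul_lt_mul_of_pos_left hc (by linarith)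
    linarith
  have k0 := key (-x - y + z) (by linarith [h1.1, h1.2, h2.1, h2.2, h3.1, h3.2, h4.1, h4.2, h5.1, h5.2, h6.1, h6.2])
  have k1 := key (-x + y - z) (by linarith [h1.1, h1.2, h2.1, h2.2, h3.1, h3.2, h4.1, h4.2, h5.1, h5.2, h6.1, h6.2])
  have k2 := key (x - y - z) (by linarith [h1.1, h1.2, h2.1, h2.2, h3.1, h3.2, h4.1, h4.2, h5.1, h5.2, h6.1, h6.2])
  have k3 := key (x + y + z) (by linarith [h1.1, h1.2, h2.1, h2.2, h3.1, h3.2, h4.1, h4.2, h5.1, h5.2, h6.1, h6.2])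
  constructor <;> linarith

/-- the outside forms -/
lemma out_le {out : List V4} (hok : okOut out = true) {x y z n0 n1 n2 n3 : ℝ}
    (hD : DC x y z) (hn : Crd x y z n0 n1 n2 n3) :
    ∀ f ∈ out, d4 f ⟨n0, n1, n2, n3⟩ ≤ Zo * m4 ⟨n0, n1, n2, n3⟩ := by
  intro f hf
  unfold okOut at hok
  rw [Bool.and_eq_true] at hok
  obtain ⟨hl, hall⟩ := hok
  have hl' := of_decide_eq_true hl
  obtain ⟨n, hna, hz⟩ := exists_zip_right axes out (by rw [hl']; rfl) f hf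
  have h1 := List.all_eq_true.mp hall _ hz
  simp only [okO, Bool.and_eq_true] at h1
  obtain ⟨⟨⟨k0, k1⟩, k2⟩, k3⟩ := h1
  have hval : ∀ (P : I4) (e : ℕ), okO1 n P e = true → (e : ℝ) - Zo ≤ 2 ^ 60 / 1000 *
      (n.a.r * P.x + n.b.r * P.y + n.c.r * P.z - (φ - 1) * P.w) := by
    intro P e h
    have h1 := geZ_sound h
    simp only [r_smul, r_sub, I4.vdot, r_add] at h1
    rw [div_mul_eq_mul_div, le_div_iff₀ (by norm_num)]
    have e1 : (⟨-1, 1⟩ : Zf).r = φ - 1 := by simp only [Zf.r]; push_cast; ring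
    rw [e1] at h1
    push_cast at h1
    linarith
  have g0 := mul_le_mul_of_nonneg_left (hval _ _ k0) hn.h0
  have g1 := mul_le_mul_of_nonneg_left (hval _ _ k1) hn.h1
  have g2 := mul_le_mul_of_nonneg_left (hval _ _ k2) hn.h2
  have g3 := mul_le_mul_of_nonneg_left (hval _ _ k3) hn.h3
  simp only [Pq0, Pq1, Pq2, Pq3] at g0 g1 g2 g3
  push_cast at g0 g1 g2 g3
  have hax : n.a.r * x + n.b.r * y + n.c.r * z - (φ - 1) ≤ 0 := by
    obtain ⟨h1, h2, h3, h4, h5, h6⟩ := hD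
    rw [abs_le] at h1 h2 h3 h4 h5 h6
    simp only [axes, List.mem_cons, List.not_mem_nil, or_false] at hna
    rcases hna with rfl | rfl | rfl | rfl | rfl | rfl | rfl | rfl | rfl | rfl | rfl | rfl <;>
    · simp only [Zf.r]
      push_cast
      linarith [h1.1, h1.2, h2.1, h2.2, h3.1, h3.2, h4.1, h4.2, h5.1, h5.2, h6.1, h6.2]
  have hs := hn.s
  have hx := hn.x
  have hy := hn.y
  have hz' := hn.z
  unfold d4 m4
  simp only
  have key : 2 ^ 60 * (n.a.r * x + n.b.r * y + n.c.r * z - (φ - 1)) ≤ 0 :=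
    mul_nonpos_of_nonneg_of_nonpos (by norm_num) hax
  rw [← hx, ← hy, ← hz'] at key
  have e2 : 2 ^ 60 * (n.a.r * (709 / 1000 * (n0 + n1 - n2 - n3)) +
      n.b.r * (709 / 1000 * (n0 - n1 + n2 - n3)) +
      n.c.r * (709 / 1000 * (-n0 + n1 + n2 - n3)) - (φ - 1)) =
      2 ^ 60 * (n.a.r * (709 / 1000 * (n0 + n1 - n2 - n3)) +
      n.b.r * (709 / 1000 * (n0 - n1 + n2 - n3)) +
      n.c.r * (709 / 1000 * (-n0 + n1 + n2 - n3)) - (φ - 1) * (n0 + n1 + n2 + n3)) := by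
    rw [hs, mul_one]
  rw [e2] at key
  linarith

/-- the neighbourhoods -/
lemma nb_of_near {R : Root} {lu : List (ℤ × ℤ × ℤ)} {lp : List I4} {n : Nb}
    (hok : okNb R lu lp n = true) {s t x y z k μ0 μ1 μ2 n0 n1 n2 n3 : ℝ}
    (hk : 0 < k) (hμ0 : 0 ≤ μ0) (hμ1 : 0 ≤ μ1)
    (hμ2 : 0 ≤ μ2) (es : k * s = μ0 * R.U0.a.r + μ1 * R.U1.a.r + μ2 * R.U2.a.r)
    (et : k * t = μ0 * R.U0.b.r + μ1 * R.U1.b.r + μ2 * R.U2.b.r)
    (ek : k = μ0 * R.U0.c.r + μ1 * R.U1.c.r + μ2 * R.U2.c.r) (hn : Crd x y z n0 n1 n2 n3)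
    (hN : NearC n ⟨μ0, μ1, μ2⟩ ⟨n0, n1, n2, n3⟩) : NbR lu lp s t x y z := by
  unfold okNb at hok
  simp only [Bool.and_eq_true] at hok
  obtain ⟨⟨⟨l1, l2⟩, a1⟩, a2⟩ := hok
  have l1' := of_decide_eq_true l1
  have l2' := of_decide_eq_true l2
  constructor
  · intro l hl
    obtain ⟨f, hf, hz⟩ := exists_zip_left lu n.fu l1' l hl
    have h1 := List.all_eq_true.mp a1 _ hz
    simp only [okNu, Bool.and_eq_true] at h1
    obtain ⟨⟨k0, k1⟩, k2⟩ := h1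
    have hval : ∀ (U : Z3) (e : ℕ), okNu1 l U e = true → (e : ℝ) - Zo ≤ 2 ^ 60 / 10 ^ 9 *
        (l.1 * U.a.r + l.2.1 * U.b.r + l.2.2 * U.c.r) := by
      intro U e h
      have h1 := geZ_sound h
      simp only [r_smul, r_add] at h1
      rw [div_mul_eq_mul_div, le_div_iff₀ (by norm_num)]
      push_cast at h1
      norm_num at h1 ⊢
      linarith
    have g0 := mul_le_mul_of_nonneg_left (hval _ _ k0) hμ0
    have g1 := mul_le_mul_of_nonneg_left (hval _ _ k1) hμ1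
    have g2 := mul_le_mul_of_nonneg_left (hval _ _ k2) hμ2
    have hN1 := hN.1 f hf
    unfold m3 d3 at hN1
    simp only at hN1
    have e1 : μ0 * (2 ^ 60 / 10 ^ 9 * (l.1 * R.U0.a.r + l.2.1 * R.U0.b.r + l.2.2 * R.U0.c.r)) +
        μ1 * (2 ^ 60 / 10 ^ 9 * (l.1 * R.U1.a.r + l.2.1 * R.U1.b.r + l.2.2 * R.U1.c.r)) +
        μ2 * (2 ^ 60 / 10 ^ 9 * (l.1 * R.U2.a.r + l.2.1 * R.U2.b.r + l.2.2 * R.U2.c.r)) =
        2 ^ 60 / 10 ^ 9 * (k * ((l.1 : ℝ) * s + l.2.1 * t + l.2.2)) := by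
      linear_combination (-(2 ^ 60 / 10 ^ 9 * (l.1 : ℝ))) * es -
        (2 ^ 60 / 10 ^ 9 * (l.2.1 : ℝ)) * et - (2 ^ 60 / 10 ^ 9 * (l.2.2 : ℝ)) * ek
    have e2 : 0 ≤ 2 ^ 60 / 10 ^ 9 * (k * ((l.1 : ℝ) * s + l.2.1 * t + l.2.2)) := by
      rw [← e1]; linarith
    have e3 : 0 ≤ k * ((l.1 : ℝ) * s + l.2.1 * t + l.2.2) :=
      nonneg_of_mul_nonneg_right e2 (by norm_num)
    exact nonneg_of_mul_nonneg_right e3 hk
  · intro l hl
    obtain ⟨f, hf, hz⟩ := exists_zip_left lp n.fp l2' l hl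
    have h1 := List.all_eq_true.mp a2 _ hz
    simp only [okNp, Bool.and_eq_true] at h1
    obtain ⟨⟨⟨k0, k1⟩, k2⟩, k3⟩ := h1
    have hval : ∀ (P : I4) (e : ℕ), okNp1 l P e = true → (e : ℝ) - Zo ≤ 2 ^ 60 / 10 ^ 12 *
        (l.w * P.w + l.x * P.x + l.y * P.y + l.z * P.z) := by
      intro P e h
      have h1 := of_decide_eq_true h
      have h2 : ((((e : ℤ) - Zo) * 10 ^ 12 : ℤ) : ℝ) ≤
        ((2 ^ 60 * (l.w * P.w + l.x * P.x + l.y * P.y + l.z * P.z) : ℤ) : ℝ) := by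
        exact_mod_cast h1
      push_cast at h2
      rw [div_mul_eq_mul_div, le_div_iff₀ (by norm_num)]
      norm_num at h2 ⊢
      linarith
    have g0 := mul_le_mul_of_nonneg_left (hval _ _ k0) hn.h0
    have g1 := mul_le_mul_of_nonneg_left (hval _ _ k1) hn.h1
    have g2 := mul_le_mul_of_nonneg_left (hval _ _ k2) hn.h2
    have g3 := mul_le_mul_of_nonneg_left (hval _ _ k3) hn.h3
    simp only [Pq0, Pq1, Pq2, Pq3] at g0 g1 g2 g3
    push_cast at g0 g1 g2 g3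
    have hN1 := hN.2 f hf
    unfold m4 d4 at hN1
    simp only at hN1
    have hs := hn.s
    have e1 : (l.w : ℝ) + l.x * x + l.y * y + l.z * z =
        l.w * (n0 + n1 + n2 + n3) + l.x * (709 / 1000 * (n0 + n1 - n2 - n3)) +
        l.y * (709 / 1000 * (n0 - n1 + n2 - n3)) + l.z * (709 / 1000 * (-n0 + n1 + n2 - n3)) := by
      rw [hn.s, hn.x, hn.y, hn.z, mul_one]
    rw [e1]
    linarith

end G1P

theorem g1 (_ : PF0) : G1 := by
  intro Vl V hV1 hV2 hV3 R ks lua lub lpa lpb hcons hout hna hnb hdone c s t x y z k μ0 μ1 μ2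
    hc hD hP hk hμ0 hμ1 hμ2 es et ek
  have hn := G1P.crd_of_DC hD
  have hfin := hdone ⟨μ0, μ1, μ2⟩ ⟨_, _, _, _⟩ ?_ ?_ ?_ (G1P.out_le hout hD hn) ?_
  · rcases hfin with h | h
    · exact Or.inl (G1P.nb_of_near hna hk hμ0 hμ1 hμ2 es et ek hn h)
    · exact Or.inr (G1P.nb_of_near hnb hk hμ0 hμ1 hμ2 es et ek hn h)
  · by_contra hcon
    push Not at hcon
    obtain ⟨z0, z1, z2⟩ := hcon
    simp only at z0 z1 z2
    rw [z0, z1, z2] at ek
    simp only [zero_mul, add_zero] at ek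
    exact absurd ek hk.ne'
  · by_contra hcon
    push Not at hcon
    obtain ⟨z0, z1, z2, z3⟩ := hcon
    have := hn.s
    simp only at z0 z1 z2 z3
    rw [z0, z1, z2, z3] at this
    norm_num at this
  · intro cn hcn
    unfold okCons at hcons
    rw [Bool.and_eq_true] at hcons
    obtain ⟨hl, hall⟩ := hcons
    have hl' := of_decide_eq_true hl
    obtain ⟨kc, -, hz⟩ := G1P.exists_zip_right ks R.D.con hl' cn hcn
    have h1 := List.all_eq_true.mp hall _ hz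
    exact G1P.good_con hV1 hV2 hV3 h1 hc hP hk hμ0 hμ1 hμ2 es et ek hn
  · refine ⟨⟨μ0, μ1, μ2, hμ0, hμ1, hμ2, ?_, ?_, ?_⟩,
      ⟨_, _, _, _, hn.h0, hn.h1, hn.h2, hn.h3, ?_, ?_, ?_, ?_⟩⟩ <;>
    · simp only [rootCell]
      push_cast
      ring

end Pool.Agent.W2helper59.NW
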